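import Pool.Agent.X15.SysS.FinP

/-!
# Primes `p_j² + t` at indices `j` of primes in bounded prime tuples, for almost all constants `t`

For almost all `t` without local obstruction there are many indices `j` such that `p_j² + t` is prime, the interval
`[p_j - C, p_j + C]` contains at least `m` primes besides `p_j`, more precisely all `p_j + h`, `h ∈ H`, are prime for a set
`H` of `m` nonzero integers of absolute value at most `C`, and all `p_j + h + a`, `h ∈ {0} ∪ H`, `a ∈ S`, have boundedly
many prime factors. Here `S` is any finite set of integers.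

The theorem is a case of a theorem of the starting files (`Pool.Agent.TH882.FinG2`).
-/

set_option autoImplicit false

open Finset Filter Topology

namespace Pool.Agent.Results.MP_04ff0f_nt.AlmostAllConstantsTuples

/-- The `j`-th prime: `p 1 = 2`, `p 2 = 3`, `p 3 = 5`, and so on. -/
noncomputable def p (j : ℕ) : ℕ := Nat.nth Nat.Prime (j - 1)

/-- No local obstruction: for every prime `l` there is an integer `y` such that `l` divides neither `y` nor `y² + t` nor any
`y + a`, `a ∈ S`. -/
def LocallyPossible (S : Finset ℤ) (t : ℕ) : Prop :=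
  ∀ l : ℕ, l.Prime → ∃ y : ℤ, ¬ (l : ℤ) ∣ y ∧ ¬ (l : ℤ) ∣ y ^ 2 + t ∧ ∀ a ∈ S, ¬ (l : ℤ) ∣ y + a

/-- The indices `j ≥ 1` with `p_j ≤ x` for which `p_j² + t` and all `p_j + h`, `h ∈ H`, are prime and all `p_j + h + a`,
`h ∈ {0} ∪ H`, `a ∈ S`, are positive with at most `r` prime factors (with multiplicity). -/
def indices (H S : Finset ℤ) (r t x : ℕ) : Set ℕ :=
  {j : ℕ | 1 ≤ j ∧ p j ≤ x ∧ (p j ^ 2 + t).Prime ∧ (∀ h ∈ H, ∃ q : ℕ, q.Prime ∧ (q : ℤ) = p j + h) ∧
    ∀ h ∈ insert 0 H, ∀ a ∈ S, 0 < (p j : ℤ) + h + a ∧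
      ArithmeticFunction.cardFactors ((p j : ℤ) + h + a).toNat ≤ r}

/-- The integers `1 ≤ t ≤ κ x²` without local obstruction such that for no set `H` of `m` nonzero integers of absolute
value at most `C` there are at least `x / (log x) ^ D` such indices. -/
def exceptions (S : Finset ℤ) (m r C D κ x : ℕ) : Set ℕ :=
  {t : ℕ | (1 ≤ t ∧ t ≤ κ * x ^ 2) ∧ LocallyPossible S t ∧
    ¬ ∃ H : Finset ℤ, H.card = m ∧ (∀ h ∈ H, h ≠ 0 ∧ |h| ≤ C) ∧
      (x : ℝ) / Real.log x ^ D ≤ ((indices H S r t x).ncard : ℝ)}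

lemma p_primeCounting {q : ℕ} (hq : q.Prime) : p (Nat.primeCounting q) = q := by
  unfold p
  have h1 : Nat.primeCounting q = Nat.count Nat.Prime q + 1 := by
    unfold Nat.primeCounting Nat.primeCounting'
    rw [Nat.count_succ, if_pos hq]
  rw [h1, Nat.add_sub_cancel]
  exact Nat.nth_count hq

/-- **Primes `p_j² + t` at primes `p_j` in bounded tuples, for almost all `t`.** Let `S` be a finite set of integers and
`m ≥ 0`. There are `r`, `C`, `D` such that for every `κ` and all `1 ≤ t ≤ κ x²` without local obstruction, with at most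
`o(x²)` exceptions as `x → ∞`, there is a set `H` of `m` nonzero integers of absolute value at most `C` such that for at
least `x / (log x) ^ D` indices `j` with `p_j ≤ x` the number `p_j² + t` and all `p_j + h`, `h ∈ H`, are prime and all
`p_j + h + a`, `h ∈ {0} ∪ H`, `a ∈ S`, have at most `r` prime factors. -/
theorem result (S : Finset ℤ) (m : ℕ) : ∃ r C D : ℕ, ∀ κ : ℕ,
    Tendsto (fun x : ℕ => ((exceptions S m r C D κ x).ncard : ℝ) / (x : ℝ) ^ 2) atTop (𝓝 0) := by
  obtain ⟨r, C, D, h⟩ := Pool.Agent.X15.SysS.FinP.finp (Polynomial.X ^ 2) (by simp) (by simp)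
    (fun n => n ^ 2) (fun y => y ^ 2) (fun n => by simp) (fun y => by simp) S m
  refine ⟨r, C, D, fun κ => ?_⟩
  have h1 := h κ
  rw [Polynomial.natDegree_X_pow] at h1
  refine squeeze_zero (fun x => by positivity) (fun x => ?_) h1
  apply div_le_div_of_nonneg_right _ (by positivity)
  apply Nat.cast_le.2
  apply Set.ncard_le_ncard _ ((Set.finite_Iic (κ * x ^ 2)).subset fun t ht => ht.1.2)
  rintro t ⟨ht1, ht2, ht3⟩
  refine ⟨ht1, ht2, ?_⟩
  rintro ⟨H, hH1, hH2, hH3⟩
  apply ht3
  refine ⟨H, hH1, hH2, hH3.trans ?_⟩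
  apply Nat.cast_le.2
  have hfin : (indices H S r t x).Finite := by
    apply (Set.finite_Iic (x + 1)).subset
    rintro j ⟨h1, h3, -⟩
    rw [Set.mem_Iic]
    have h4 : j - 1 ≤ p j := (Nat.nth_strictMono Nat.infinite_setOf_prime).le_apply (x := j - 1)
    omega
  apply Set.ncard_le_ncard_of_injOn Nat.primeCounting _ _ hfin
  · rintro q ⟨hq1, hq2, hq3, hq4, hq5⟩
    refine ⟨?_, ?_, ?_, ?_, ?_⟩
    · exact Nat.monotone_primeCounting hq2.two_le |>.trans' (by decide)
    · rw [p_primeCounting hq2]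
      exact hq1
    · rw [p_primeCounting hq2]
      exact hq3
    · rw [p_primeCounting hq2]
      exact hq4
    · rw [p_primeCounting hq2]
      exact hq5
  · intro q hq q' hq' hqq
    rw [← p_primeCounting hq.2.1, ← p_primeCounting hq'.2.1, hqq]

end Pool.Agent.Results.MP_04ff0f_nt.AlmostAllConstantsTuples
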