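import Mathlib
import Pool.Agent.X28.SX.StepI

/-!
# Representations `n = k + m` for which `p_k ^ 2 + t`, `p_m ^ 2 + u`, `p_{p_m} ^ 2 + v` are prime, for almost all
constants

For every large `n`, every dense set `K` of `k < n` and almost all vectors of constants `t_i, u_i, v_i`, `i < r`
(multiples of a small primorial from arbitrary long windows below `n ^ 2`) all the numbers `p_k ^ 2 + t_i`,
`p_m ^ 2 + u_i`, `p_{p_m} ^ 2 + v_i`, `m = n - k`, are prime for at least `1 - ε` times the expected number of `k ∈ K`.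
-/

set_option autoImplicit false

namespace Pool.Agent.Results.MP_04ff0f_nt.ThreeShiftedSquares

open Finset

/-- the `k`-th prime, `p 1 = 2` -/
noncomputable def p (k : ℕ) : ℕ := Nat.nth Nat.Prime (k - 1)

/-- the product of `1 - 1/q` over the primes `q ≤ y` -/
noncomputable def V (y : ℕ) : ℝ := ∏ q ∈ (Icc 1 y).filter Nat.Prime, (1 - 1 / (q : ℝ))

/-- the three primes `p_k`, `p_m`, `p_{p_m}` of the question, `m = n - k` -/
noncomputable def base (n : ℕ) (c : Fin 3) (k : ℕ) : ℕ := ![p k, p (n - k), p (p (n - k))] c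

open Classical in
/-- the `k ∈ K` for which all the numbers `p_k ^ 2 + t (0, i)`, `p_m ^ 2 + t (1, i)`, `p_{p_m} ^ 2 + t (2, i)`,
`i < r`, `m = n - k`, are prime -/
noncomputable def Good (n : ℕ) (K : Finset ℕ) {r : ℕ} (t : Fin 3 × Fin r → ℕ) : Finset ℕ :=
  K.filter (fun k => ∀ i, (base n i.1 k ^ 2 + t i).Prime)

theorem base_inj (n : ℕ) (c : Fin 3) : Set.InjOn (base n c) (Ioo 0 n : Finset ℕ) := by
  intro a ha b hb hab
  rw [mem_coe, mem_Ioo] at ha hb
  have key : ∀ x z : ℕ, 1 ≤ x → 1 ≤ z → p x = p z → x = z := fun x z h1 h2 h => Pool.Agent.X28.SX.nth_inj' h1 h2 h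
  have h1 : ∀ x : ℕ, 1 ≤ p x := fun x => by
    have := Pool.Agent.X28.SX.nth_two (x - 1)
    unfold p
    omega
  fin_cases c
  · exact key a b (by omega) (by omega) hab
  · have := key (n - a) (n - b) (by omega) (by omega) hab
    omega
  · have h2 := key _ _ (h1 _) (h1 _) (show p (p (n - a)) = p (p (n - b)) from hab)
    have := key (n - a) (n - b) (by omega) (by omega) h2
    omega

/-- For all `r`, `A`, `C` and `0 < ε ≤ 1` there is `K₀` such that for every `K₁` and every large `n`, every `y` between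
`K₀ log log n` and `K₁ log log n`, with `M` the product of the primes `≤ y`, and every window `(g₀, g₀ + G]` with
`M (g₀ + G) ≤ n ^ 2`, `G ≥ n ^ 2 / (M log ^ C n)`: for every set `K` of at least `n / log ^ A n` integers `0 < k < n`, for
all but at most `ε G ^ (3 r)` of the vectors `g ∈ [1, G] ^ (3 r)`, with the constants `t_i = M (g₀ + g_i)`, all the numbers
`p_k ^ 2 + t`, `p_m ^ 2 + t`, `p_{p_m} ^ 2 + t` (with `r` of the constants `t` each), `m = n - k`, are prime for at least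
`(1 - ε) #K / (2 V y log n) ^ (3 r)` elements `k` of `K`. -/
theorem result : ∀ (r A C : ℕ) (ε : ℝ), 0 < ε → ε ≤ 1 → ∃ K₀ : ℕ, ∀ K₁ : ℕ, ∃ n₀ : ℕ, ∀ n : ℕ, n₀ ≤ n →
    ∀ y : ℕ, K₀ * Real.log (Real.log n) ≤ y → y ≤ K₁ * Real.log (Real.log n) →
    ∀ g₀ G : ℕ, primorial y * (g₀ + G) ≤ n ^ 2 → (n : ℝ) ^ 2 ≤ primorial y * G * Real.log n ^ C →
    ∀ K : Finset ℕ, K ⊆ Ioo 0 n → (n : ℝ) ≤ K.card * Real.log n ^ A →
      (((Fintype.piFinset (fun _ : Fin 3 × Fin r => Icc 1 G)).filter (fun g =>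
        ((Good n K (fun i => primorial y * (g₀ + g i))).card : ℝ) <
          (1 - ε) * (K.card / (2 * V y * Real.log n) ^ (3 * r)))).card : ℝ) ≤ ε * (G : ℝ) ^ (3 * r) := by
  classical
  intro r A C ε hε hε1
  obtain ⟨K₀, hK₀⟩ := Pool.Agent.X28.SX.stepI (ι := Fin 3 × Fin r) (fun _ => 2) (fun _ => Or.inr rfl) A 5 C ε hε hε1
  refine ⟨K₀, fun K₁ => ?_⟩
  obtain ⟨n1, hn1⟩ := hK₀ K₁
  obtain ⟨n2, hn2⟩ := Pool.Agent.X28.SX.nth_le
  obtain ⟨n3, hn3⟩ := Pool.Agent.X28.SX.nth_nth_le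
  obtain ⟨n4, hn4⟩ := Pool.Agent.H373R2.T7.ev_L' 1
  refine ⟨max n1 (max n2 (max n3 n4)), fun n hn y hy1 hy2 g₀ G hg1 hg2 K hK hKc => ?_⟩
  have b1 : n1 ≤ n := le_trans (le_max_left _ _) hn
  have b2 : n2 ≤ n := le_trans (le_trans (le_max_left _ _) (le_max_right _ _)) hn
  have b3 : n3 ≤ n := le_trans (le_trans (le_trans (le_max_left _ _) (le_max_right _ _)) (le_max_right _ _)) hn
  have b4 : n4 ≤ n := le_trans (le_trans (le_trans (le_max_right _ _) (le_max_right _ _)) (le_max_right _ _)) hn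
  have hL1 := hn4 n b4
  have hpow : (n : ℝ) * Real.log n ^ 2 ≤ n * Real.log n ^ 5 :=
    mul_le_mul_of_nonneg_left (pow_le_pow_right₀ hL1 (by norm_num)) (Nat.cast_nonneg _)
  have hbd : ∀ c : Fin 3, ∀ k ∈ Ioo 0 n, (base n c k).Prime ∧ (base n c k : ℝ) ≤ n * Real.log n ^ 5 := by
    intro c k hk
    rw [mem_Ioo] at hk
    fin_cases c
    · exact ⟨Nat.prime_nth_prime _, (hn2 n b2 k (by omega)).trans hpow⟩
    · exact ⟨Nat.prime_nth_prime _, (hn2 n b2 (n - k) (by omega)).trans hpow⟩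
    · exact ⟨Nat.prime_nth_prime _, hn3 n b3 (n - k) (by omega)⟩
  have h1 := hn1 n b1 y hy1 hy2 K hKc (fun i => base n i.1) (fun i => (base_inj n i.1).mono (by exact_mod_cast hK))
    (fun i k hk => hbd i.1 k (hK hk)) (fun _ => g₀) (fun _ => G) (fun _ => hg1) (fun _ => hg2)
  have hc : Fintype.card (Fin 3 × Fin r) = 3 * r := by simp
  simp only [prod_const, card_univ, hc] at h1
  refine le_trans (le_of_eq ?_) h1
  congr 2
  apply filter_congr
  intro g _
  have e1 : Pool.Agent.H373R2.T7.Vz y * (((2 : ℕ) : ℝ) * Real.log n) = 2 * V y * Real.log n := by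
    have : Pool.Agent.H373R2.T7.Vz y = V y := rfl
    rw [this]
    push_cast
    ring
  rw [e1]
  rfl

end Pool.Agent.Results.MP_04ff0f_nt.ThreeShiftedSquares
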